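import Pool.Agent.PCS.Stmts

/-! PCS, row BND (helper48): bounded orbit sizes are impossible. -/

open scoped Pointwise

namespace Pool.Agent.PCS.H48

open Pool.Agent.H50.CIG Pool.Agent.PCS

theorem alive_zero {Γ V : Type} [Group Γ] [MulAction Γ V] (T : Tree Γ V) (S : Finset Γ)
    (rk : Γ → V → ℕ) (v : V) : Alive T S rk 0 v := fun m hm => absurd hm (Nat.not_lt_zero m)

theorem exists_end {Γ V : Type} [Group Γ] [MulAction Γ V] (T : Tree Γ V) (S : Finset Γ)
    (rk : Γ → V → ℕ) (v : V) (h : ¬ ∀ m, Alive T S rk m v) :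
    ∃ m, Alive T S rk m v ∧ ¬ Alive T S rk (m + 1) v := by
  by_contra hc
  push Not at hc
  apply h
  intro m
  induction m with
  | zero => exact alive_zero T S rk v
  | succ m ih => exact hc m ih

theorem bnd (hLev : LevStmt) (hFix : FixStmt) (hChd : ChdStmt)
    (hDze : DzeStmt) (hRks : RksStmt) (hZin : ZinStmt) (hEia : EiaStmt) (hEib : EibStmt)
    (hCst : CstStmt) (hExt : ExtStmt) : BndStmt := by
  intro Γ V _ _ T S rk R K q M hSet hb
  have hS : S.Nonempty := ⟨1, hSet.one_mem⟩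
  have hR := hSet.rank
  obtain ⟨U, n, δ, σ, hG, hδ, hσ, hmin⟩ := hExt Γ V T S rk R K q M hSet hb
  have hδ1 : 1 ≤ δ := by
    rcases Nat.eq_zero_or_pos δ with h0 | h0
    · exact absurd (h0 ▸ hδ) (hDze Γ V T S rk R K q M hSet hb U n hG)
    · exact h0
  obtain ⟨H, hHfi, hH⟩ := hFix Γ V S hSet.gen (T.d * M)
  have hH' : ∀ v : V, N Γ v ≤ T.d * M → ∀ h ∈ H, h • v = v := fun v hv =>
    hH v ((hLev Γ V T).2 v).1 hv
  have hZ := hZin Γ V T S rk R K q M δ hSet hδ1 H hHfi hH' U n hG (hb U n hG) hδ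
    (fun U' n' hG' => by
      obtain ⟨δ', σ', -, h1, h2⟩ := hCst Γ V T S rk R hR hS U' n' hG'
      have h3 := (hmin U' n' δ' σ' hG' h1 h2).1
      filter_upwards [h1] with v hv
      rw [hv]
      exact h3)
  by_cases hA : ∀ᶠ v in (U : Filter V), ∀ m, Alive T S rk m v
  · exact hZ (hEia Γ V T S rk R K q M hSet H hH' U n hG (hb U n hG) hA)
  · have hA' : ∀ᶠ v in (U : Filter V), ∃ m, Alive T S rk m v ∧ ¬ Alive T S rk (m + 1) v := by
      filter_upwards [Ultrafilter.eventually_not.2 hA] with v hv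
      exact exists_end T S rk v hv
    obtain ⟨U', hG', hδ', hσ', hneu⟩ := hEib Γ V T S rk R K q M hSet H hHfi hH' U n δ σ hG
      (hb U n hG) hδ1 hδ hσ hZ hA'
    obtain ⟨i, n', hi, hG'', hn1, hn2⟩ := hChd Γ V T S rk R K q hSet U' n hG'
    obtain ⟨δ', σ', -, h1, h2⟩ := hCst Γ V T S rk R hR hS (U'.map (T.child i)) n' hG''
    obtain ⟨hm1, hm2, hm3⟩ := hmin _ n' δ' σ' hG'' h1 h2
    have e1 : ∀ᶠ v in (U' : Filter V), del S rk (T.child i v) = δ' := Filter.eventually_map.1 h1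
    have e2 : ∀ᶠ v in (U' : Filter V), sig S rk (T.child i v) = σ' := Filter.eventually_map.1 h2
    have e3 : ∀ᶠ v in (U' : Filter V), N Γ (T.child i v) = n' := Filter.eventually_map.1 hG''.1
    obtain ⟨v, a1, a2, a3, a4, a5, a6, a7⟩ :=
      (e1.and (e2.and (e3.and (hG'.1.and (hδ'.and (hσ'.and hneu)))))).exists
    obtain ⟨-, -, -, r4, r5⟩ := hRks Γ V T S rk R hR hS
    have hlv : T.lv (T.child i v) = T.lv v + 1 := T.lv_child i v
    have hpos : 0 < T.lv (T.child i v) := by omega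
    have hpar : T.par (T.child i v) = v := T.par_child i v
    have b1 := r4 _ hpos
    rw [hpar, a1, a5] at b1
    have hδe : δ' = δ := le_antisymm b1 hm1
    have hne : n' = n := le_antisymm (hm2 hδe) hn1
    have hNe : N Γ (T.child i v) = N Γ v := by rw [a3, a4, hne]
    have b2 := (r5 _ hpos (by rw [hpar]; exact hNe)).2.1
    rw [hpar, a2, a6] at b2
    have hσe : σ' = σ := le_antisymm b2 (hm3 hδe hne)
    exact a7 ⟨T.child i v, hpar, hlv, hNe, by rw [a2, a6, hσe]⟩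

end Pool.Agent.PCS.H48
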